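import Pool.Agent.Helper99.AA.Stmts

set_option autoImplicit false

/-!
Row BU of the project AA: the measure of the empty windows is small.
-/

open Finset MeasureTheory
open scoped BigOperators Nat

namespace Pool.Agent.Helper99.AA

open Pool.Agent.Helper40.MR

/-- the products of the primes of the two blocks lie in `[1, 4 M^2]` -/
theorem bu_mem {η M : ℝ} (hη : 0 < η) (hη' : η ≤ 1 / 10) (hM : 1 ≤ M) {r : ℕ × ℕ}
    (hr : r ∈ Pa η M ×ˢ Qa η M) : r.1 * r.2 ∈ Icc 1 ⌊4 * M ^ 2⌋₊ := by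
  rw [Finset.mem_product] at hr
  obtain ⟨h1, h2⟩ := hr
  unfold Pa Qa PrI IocN at *
  rw [Finset.mem_filter, Finset.mem_Ioc] at h1 h2
  have p1 := h1.2.pos
  have p2 := h2.2.pos
  rw [Finset.mem_Icc]
  refine ⟨Nat.mul_pos p1 p2, ?_⟩
  apply Nat.le_floor
  have a1 : (r.1 : ℝ) ≤ M * (1 + 2 * η) := (Nat.le_floor_iff (by positivity)).1 h1.1.2
  have a2 : (r.2 : ℝ) ≤ M * (1 + η) := (Nat.le_floor_iff (by positivity)).1 h2.1.2
  push_cast
  have b1 : (r.1 : ℝ) ≤ 2 * M := by nlinarith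
  have b2 : (r.2 : ℝ) ≤ 2 * M := by nlinarith
  have c1 : (0 : ℝ) ≤ r.1 := Nat.cast_nonneg _
  have c2 : (0 : ℝ) ≤ r.2 := Nat.cast_nonneg _
  nlinarith [mul_le_mul b1 b2 c2 (by positivity)]

/-- sum of `co` over a window -/
theorem bu_sum {η M : ℝ} (hη : 0 < η) (hη' : η ≤ 1 / 10) (hM : 1 ≤ M) (δ u : ℝ) :
    ∑ n ∈ (Icc 1 ⌊4 * M ^ 2⌋₊).filter
      (fun n : ℕ => u < Real.log n ∧ Real.log n ≤ u + δ), co η M n = (Wn η M δ u : ℂ) := by
  classical
  have hW : Wn η M δ u = ((Pa η M ×ˢ Qa η M).filter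
    (fun r : ℕ × ℕ => u < Real.log ((r.1 * r.2 : ℕ) : ℝ) ∧
      Real.log ((r.1 * r.2 : ℕ) : ℝ) ≤ u + δ)).card := by
    unfold Wn
    congr 1
  rw [hW, Finset.card_eq_sum_card_fiberwise (f := fun r : ℕ × ℕ => r.1 * r.2)
    (t := (Icc 1 ⌊4 * M ^ 2⌋₊).filter (fun n : ℕ => u < Real.log n ∧ Real.log n ≤ u + δ))]
  · push_cast
    apply Finset.sum_congr rfl
    intro n hn
    rw [Finset.mem_filter] at hn
    unfold co
    congr 2
    ext r
    simp only [Finset.mem_filter]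
    constructor
    · rintro ⟨h1, h2⟩
      refine ⟨⟨h1, ?_⟩, h2⟩
      rw [← Nat.cast_mul, h2]
      exact hn.2
    · rintro ⟨⟨h1, _⟩, h2⟩
      exact ⟨h1, h2⟩
  · intro r hr
    rw [Finset.mem_coe, Finset.mem_filter] at hr
    rw [Finset.mem_coe, Finset.mem_filter]
    exact ⟨bu_mem hη hη' hM hr.1, hr.2⟩

/-- a window sum as a sum of indicator functions -/
theorem bu_ind (s : Finset ℕ) (a : ℕ → ℂ) (δ : ℝ) :
    (fun u : ℝ => ∑ n ∈ s.filter (fun n : ℕ => u < Real.log n ∧ Real.log n ≤ u + δ), a n) =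
      fun u : ℝ => ∑ n ∈ s, (Set.Ico (Real.log n - δ) (Real.log n)).indicator (fun _ => a n) u := by
  funext u
  rw [Finset.sum_filter]
  apply Finset.sum_congr rfl
  intro n _
  by_cases h : u < Real.log n ∧ Real.log n ≤ u + δ
  · rw [if_pos h, Set.indicator_of_mem]
    exact ⟨by linarith [h.2], h.1⟩
  · rw [if_neg h, Set.indicator_of_notMem]
    intro h'
    exact h ⟨h'.2, by linarith [h'.1]⟩

theorem bu_meas (s : Finset ℕ) (a : ℕ → ℂ) (δ : ℝ) :
    Measurable (fun u : ℝ =>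
      ∑ n ∈ s.filter (fun n : ℕ => u < Real.log n ∧ Real.log n ≤ u + δ), a n) := by
  rw [bu_ind]
  apply Finset.measurable_sum
  intro n _
  exact measurable_const.indicator measurableSet_Ico

theorem bu_bdd (s : Finset ℕ) (a : ℕ → ℂ) (δ u : ℝ) :
    ‖∑ n ∈ s.filter (fun n : ℕ => u < Real.log n ∧ Real.log n ≤ u + δ), a n‖ ≤ ∑ n ∈ s, ‖a n‖ := by
  refine (norm_sum_le _ _).trans ?_
  exact Finset.sum_le_sum_of_subset_of_nonneg (Finset.filter_subset _ _)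
    (fun _ _ _ => norm_nonneg _)

/-- the integrand of PLD is integrable -/
theorem bu_int (s : Finset ℕ) (a : ℕ → ℂ) (hs : ∀ n ∈ s, 1 ≤ n) (δ δ₂ : ℝ) (h1 : 0 < δ)
    (h2 : δ ≤ δ₂) (h3 : δ₂ ≤ 1) :
    Integrable (fun u : ℝ => ‖∑ n ∈ s.filter
        (fun n : ℕ => u < Real.log n ∧ Real.log n ≤ u + δ), a n -
      ((δ / δ₂ : ℝ) : ℂ) * ∑ n ∈ s.filter
        (fun n : ℕ => u < Real.log n ∧ Real.log n ≤ u + δ₂), a n‖ ^ 2 *
      Real.exp (-(2 * u))) := by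
  set B : ℝ := ∑ n ∈ s, ‖a n‖ with hB
  have hB0 : 0 ≤ B := Finset.sum_nonneg (fun _ _ => norm_nonneg _)
  set L : ℝ := ∑ n ∈ s, Real.log n with hL
  have hlog : ∀ n ∈ s, 0 ≤ Real.log n := fun n hn => Real.log_nonneg (by exact_mod_cast hs n hn)
  have hlogL : ∀ n ∈ s, Real.log n ≤ L := fun n hn =>
    Finset.single_le_sum (f := fun n : ℕ => Real.log n) hlog hn
  have hzero : ∀ u : ℝ, u ∉ Set.Icc (-1 : ℝ) L → ∀ δ' : ℝ, δ' ≤ 1 →
      s.filter (fun n : ℕ => u < Real.log n ∧ Real.log n ≤ u + δ') = ∅ := by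
    intro u hu δ' hδ'
    rw [Finset.filter_eq_empty_iff]
    rintro n hn ⟨h4, h5⟩
    apply hu
    have := hlog n hn
    have := hlogL n hn
    exact ⟨by linarith, by linarith⟩
  set F : ℝ → ℝ := fun u : ℝ => ‖∑ n ∈ s.filter
        (fun n : ℕ => u < Real.log n ∧ Real.log n ≤ u + δ), a n -
      ((δ / δ₂ : ℝ) : ℂ) * ∑ n ∈ s.filter
        (fun n : ℕ => u < Real.log n ∧ Real.log n ≤ u + δ₂), a n‖ ^ 2 *
      Real.exp (-(2 * u)) with hF
  have hFm : Measurable F := by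
    have m1 := bu_meas s a δ
    have m2 := bu_meas s a δ₂
    have m3 : Measurable (fun u : ℝ => Real.exp (-(2 * u))) := by fun_prop
    exact (((m1.sub (m2.const_mul _)).norm).pow_const 2).mul m3
  have hsupp : Function.support F ⊆ Set.Icc (-1 : ℝ) L := by
    intro u hu
    by_contra hu'
    apply hu
    have e1 := hzero u hu' δ (h2.trans h3)
    have e2 := hzero u hu' δ₂ h3
    simp only [hF]
    rw [e1, e2]
    simp
  rw [← integrableOn_iff_integrable_of_support_subset hsupp]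
  have hδ₂ : 0 < δ₂ := h1.trans_le h2
  have hq : δ / δ₂ ≤ 1 := (div_le_one hδ₂).2 h2
  have hq0 : 0 ≤ δ / δ₂ := by positivity
  refine Measure.integrableOn_of_bounded (M := (2 * B) ^ 2 * Real.exp 2) ?_ hFm.aestronglyMeasurable ?_
  · rw [Real.volume_Icc]
    exact ENNReal.ofReal_ne_top
  · rw [ae_restrict_iff' measurableSet_Icc]
    refine Filter.Eventually.of_forall (fun u hu => ?_)
    have b1 := bu_bdd s a δ u
    have b2 := bu_bdd s a δ₂ u
    simp only [hF]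
    rw [Real.norm_of_nonneg (by positivity)]
    apply mul_le_mul
    · apply pow_le_pow_left₀ (norm_nonneg _)
      refine (norm_sub_le _ _).trans ?_
      rw [norm_mul, Complex.norm_real, Real.norm_of_nonneg hq0]
      have := mul_le_mul hq b2 (norm_nonneg _) zero_le_one
      rw [one_mul] at this
      linarith
    · apply Real.exp_le_exp.2
      linarith [hu.1]
    · exact (Real.exp_pos _).le
    · positivity

/-- Row BU. -/
theorem st_BU (hLO : ST_LO) (hPLD : ST_PLD) (hVA : ST_VA) : ST_BU := by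
  intro η c₀ ε hη hη' hc hε
  obtain ⟨C, hC, hP⟩ := hPLD
  set ε' : ℝ := ε * η ^ 2 / (10 ^ 4 * C) with hε'
  have hε'0 : 0 < ε' := by positivity
  obtain ⟨δ₂, hδ₂, hδ₂η, M₁, hV⟩ := hVA η c₀ ε' hη hη' hc hε'0
  obtain ⟨M₂, hL⟩ := hLO η δ₂ hη hη' hδ₂ hδ₂η
  refine ⟨max (max M₁ M₂) (max 3 (c₀ / δ₂)), fun M hM => ?_⟩
  have hM1 : M₁ ≤ M := le_trans (le_trans (le_max_left _ _) (le_max_left _ _)) hM
  have hM2 : M₂ ≤ M := le_trans (le_trans (le_max_right _ _) (le_max_left _ _)) hM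
  have hM3 : 3 ≤ M := le_trans (le_trans (le_max_left _ _) (le_max_right _ _)) hM
  have hM4 : c₀ / δ₂ ≤ M := le_trans (le_trans (le_max_right _ _) (le_max_right _ _)) hM
  have hM0 : 0 < M := by linarith
  have hδ : 0 < c₀ / M := by positivity
  have hδδ₂ : c₀ / M ≤ δ₂ := by
    rw [div_le_iff₀ hδ₂] at hM4
    rw [div_le_iff₀ hM0]
    linarith
  have hδ₂1 : δ₂ ≤ 1 := by linarith
  have hlog : 0 < Real.log M := Real.log_pos (by linarith)
  have hs : ∀ n ∈ Icc 1 ⌊4 * M ^ 2⌋₊, 1 ≤ n := fun n hn => (Finset.mem_Icc.1 hn).1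
  have hPL := hP (Icc 1 ⌊4 * M ^ 2⌋₊) (c₀ / M) δ₂ (co η M) hs hδ hδδ₂ hδ₂1
  have hVA := hV M hM1
  have hI := bu_int (Icc 1 ⌊4 * M ^ 2⌋₊) (co η M) hs (c₀ / M) δ₂ hδ hδδ₂ hδ₂1
  set F : ℝ → ℝ := fun u : ℝ => ‖∑ n ∈ (Icc 1 ⌊4 * M ^ 2⌋₊).filter
        (fun n : ℕ => u < Real.log n ∧ Real.log n ≤ u + c₀ / M), co η M n -
      ((c₀ / M / δ₂ : ℝ) : ℂ) * ∑ n ∈ (Icc 1 ⌊4 * M ^ 2⌋₊).filter
        (fun n : ℕ => u < Real.log n ∧ Real.log n ≤ u + δ₂), co η M n‖ ^ 2 *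
      Real.exp (-(2 * u)) with hF
  have hF0 : 0 ≤ᵐ[volume] F := Filter.Eventually.of_forall (fun u => by
    simp only [hF, Pi.zero_apply]
    positivity)
  set κ : ℝ := (c₀ / M) ^ 2 * (η / (100 * Real.log M ^ 2)) ^ 2 with hκ
  have hκ0 : 0 < κ := by positivity
  have hMk := mul_meas_ge_le_integral_of_nonneg hF0 hI κ
  have hsub : {u : ℝ | M ^ 2 * (1 - η / 4) ≤ Real.exp u ∧ Real.exp u ≤ M ^ 2 * (1 + η) ∧
      Wn η M (c₀ / M) u = 0} ⊆ {u : ℝ | κ ≤ F u} := by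
    rintro u ⟨h1, h2, h3⟩
    have hl := hL M u hM2 h1 h2
    simp only [Set.mem_ofPred_eq, hF]
    rw [bu_sum hη hη' (by linarith), bu_sum hη hη' (by linarith), h3, Nat.cast_zero, zero_sub,
      norm_neg, norm_mul, Complex.norm_real, Real.norm_of_nonneg (by positivity),
      Complex.norm_natCast]
    have he : Real.exp (-(2 * u)) = (Real.exp u)⁻¹ ^ 2 := by
      rw [← Real.exp_neg, ← Real.exp_nat_mul]
      congr 1
      push_cast
      ring
    rw [he, hκ]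
    have hexp := Real.exp_pos u
    have hstep : c₀ / M * (η / (100 * Real.log M ^ 2)) ≤
        c₀ / M / δ₂ * (Wn η M δ₂ u : ℝ) * (Real.exp u)⁻¹ := by
      have h5 : Real.exp u * δ₂ * η / (100 * Real.log M ^ 2) * (Real.exp u)⁻¹ ≤
          (Wn η M δ₂ u : ℝ) * (Real.exp u)⁻¹ :=
        mul_le_mul_of_nonneg_right hl (by positivity)
      have h6 := mul_le_mul_of_nonneg_left h5 (show 0 ≤ c₀ / M / δ₂ by positivity)
      calc c₀ / M * (η / (100 * Real.log M ^ 2))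
          = c₀ / M / δ₂ * (Real.exp u * δ₂ * η / (100 * Real.log M ^ 2) * (Real.exp u)⁻¹) := by
            field_simp
        _ ≤ _ := h6
        _ = _ := by ring
    calc (c₀ / M) ^ 2 * (η / (100 * Real.log M ^ 2)) ^ 2
        = (c₀ / M * (η / (100 * Real.log M ^ 2))) ^ 2 := by ring
      _ ≤ (c₀ / M / δ₂ * (Wn η M δ₂ u : ℝ) * (Real.exp u)⁻¹) ^ 2 :=
          pow_le_pow_left₀ (by positivity) hstep 2
      _ = _ := by ring
  have hfin : volume {u : ℝ | κ ≤ F u} ≠ ⊤ :=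
    (Integrable.measure_ge_lt_top hI hκ0).ne
  have hreal : volume.real {u : ℝ | κ ≤ F u} ≤ ε := by
    have h7 : κ * volume.real {u : ℝ | κ ≤ F u} ≤
        C * (ε' * (c₀ / M) ^ 2 / Real.log M ^ 4) := by
      refine hMk.trans (hPL.trans ?_)
      exact mul_le_mul_of_nonneg_left hVA hC.le
    have h8 : C * (ε' * (c₀ / M) ^ 2 / Real.log M ^ 4) = κ * ε := by
      rw [hκ, hε']
      field_simp
      ring
    rw [h8] at h7
    exact le_of_mul_le_mul_left h7 hκ0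
  calc volume _ ≤ volume {u : ℝ | κ ≤ F u} := measure_mono hsub
    _ = ENNReal.ofReal (volume.real {u : ℝ | κ ≤ F u}) := (ENNReal.ofReal_toReal hfin).symm
    _ ≤ ENNReal.ofReal ε := ENNReal.ofReal_le_ofReal hreal

end Pool.Agent.Helper99.AA
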